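import Pool.Agent.Y163.TateC

/-!
# MP_557161_ag: the index law for the orders of the poles of the zeta functions of powers
-/

set_option autoImplicit false

open CategoryTheory AlgebraicGeometry

universe u v

namespace Pool.Agent.Results.MP_557161_ag.IndexLaw

open Pool.Agent.H914 Pool.Agent.W534 VarClass Obj WeilCohomology Pool.Agent.Y163

/-- Let `X` be a smooth projective variety over an algebraic closure of a finite field, of
dimension `d` and with total Betti number `b`. Let `z n` be the order of the pole at the central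
point `(n + 1) * d` of the zeta function of `sq X n = X ^ (2 n + 2)` over all sufficiently large
finite fields, and let `r n` be the rank of the cycles of codimension `(n + 1) * d` on it modulo
numerical equivalence. Then the formula of Tate holds for all powers of `X` at all integers, or
the ratio `z n / r n` tends to a natural number that is at least two, or it tends to infinity.
Moreover, if `z n` is less than `2 - ε` times `r n` for one `n`, with an explicit `ε`, then the
formula of Tate holds for `X ^ (κ + 1)` at all integers. -/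
theorem result {k : Type u} [Field k] {𝒱 : VarClass k} {ops : CycleOps 𝒱}
    (W : WeilCohomology.{u, v} ops) [IsAlgClosed W.K] (σ : W.K →+* ℂ) (p : ℕ) (hp : p.Prime)
    (Φ : FrobSystem W p) (hRH : ∀ Z : 𝒱.Obj, RiemannHyp Φ σ Z) (X : 𝒱.Obj) (D : X.Cycles)
    (hD : X.IsCyc 1 D) (hbig : Big ops X D) :
    ∃ z r : ℕ → ℕ,
      (∀ n, PoleOrderIs Φ σ (sq X n) ((n + 1) * X.dim) (z n)) ∧
      (∀ n, r n = numRank ops (sq X n) ((n + 1) * X.dim)) ∧
      (∀ n, 0 < r n ∧ r n ≤ z n) ∧
      ((∀ n j, j ≤ (pw X n).dim → PoleFormula Φ σ (pw X n) j) ∨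
        (∃ d : ℕ, 2 ≤ d ∧ (∀ n, z n ≤ d * r n) ∧
          Filter.Tendsto (fun n => (z n : ℝ) / r n) Filter.atTop (nhds d)) ∨
        Filter.Tendsto (fun n => (z n : ℝ) / r n) Filter.atTop Filter.atTop) ∧
      ∀ κ n : ℕ, 0 < n →
        (z n : ℝ) < (2 - 2 * (κ + 1) * (Module.finrank W.K (W.H X) : ℝ) ^ (2 * κ + 4) *
          Real.log (n + 2) / n) * r n →
        ∀ j ≤ (pw X κ).dim, PoleFormula Φ σ (pw X κ) j := by
  obtain ⟨z, h1, h2, h3, h4⟩ := tate_index' (W := W) hp.one_lt Φ σ hRH hD hbig
  exact ⟨z, fun n => numRank ops (sq X n) ((n + 1) * X.dim), h1, fun _ => rfl, h2, h3, h4⟩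

end Pool.Agent.Results.MP_557161_ag.IndexLaw
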