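import Pool.Agent.Y163.Pole.Fin

/-!
# MP_557161_ag: one pole decides
-/

set_option autoImplicit false

open CategoryTheory AlgebraicGeometry

universe u v

namespace Pool.Agent.Results.MP_557161_ag.OnePole

open Pool.Agent.H914 Pool.Agent.W534 VarClass Obj WeilCohomology Pool.Agent.Y163.Pole

/-- Let `Y` be a hyperplane section of `X`. The formula of Tate for the order of the pole of the
zeta function of `X × Y` at the single integer `dim Y` is equivalent to the formula for `X × Y` at
all integers, and to the equality of the generalised eigenspaces of the Frobenius endomorphisms for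
the eigenvalue `q ^ dim Y` with the span of the classes of cycles; it implies the standard
conjecture of Lefschetz type for `X`, the formula for `X` and for `Y` at all integers, for `X × X`
at all integers different from `dim X` and for `Y × Y` at all integers different from `dim Y`.
If all varieties of positive dimension have hyperplane sections, then the formula for all varieties
of positive dimension at all integers is equivalent to the formula for all varieties of odd
dimension `2 n + 1` at the integer `n`, and to its cases `X × Y`. -/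
theorem result {k : Type u} [Field k] {𝒱 : VarClass k} {ops : CycleOps 𝒱}
    (W : WeilCohomology.{u, v} ops) (σ : W.K →+* ℂ) (p : ℕ) (hp : p.Prime)
    (Φ : FrobSystem W p) (hRH : ∀ Z : 𝒱.Obj, RiemannHyp Φ σ Z) :
    (∀ (X Y : 𝒱.Obj) (i : Y ⟶ X) (D : X.Cycles), HypSection W i D →
      List.TFAE [
        PoleFormula Φ σ (X.prod Y) Y.dim,
        PoleFormula Φ σ (X.prod Y) X.dim,
        ∀ j ≤ (X.prod Y).dim, PoleFormula Φ σ (X.prod Y) j,
        SemisimpleTateIn Φ (X.prod Y) Y.dim] ∧
      (PoleFormula Φ σ (X.prod Y) Y.dim →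
        LefschetzB W X D ∧
        (∀ j ≤ (X.prod Y).dim, PoleFormula Φ σ (X.prod Y) j) ∧
        (∀ j ≤ X.dim, PoleFormula Φ σ X j) ∧
        (∀ j ≤ Y.dim, PoleFormula Φ σ Y j) ∧
        (∀ j ≤ (X.prod X).dim, j ≠ X.dim → PoleFormula Φ σ (X.prod X) j) ∧
        ∀ j ≤ (Y.prod Y).dim, j ≠ Y.dim → PoleFormula Φ σ (Y.prod Y) j)) ∧
    ((∀ X : 𝒱.Obj, 0 < X.dim →
        ∃ (Y : 𝒱.Obj) (i : Y ⟶ X) (D : X.Cycles), HypSection W i D) →
      List.TFAE [
        ∀ (X Y : 𝒱.Obj) (i : Y ⟶ X) (D : X.Cycles), HypSection W i D →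
          PoleFormula Φ σ (X.prod Y) Y.dim,
        ∀ (Z : 𝒱.Obj) (n : ℕ), Z.dim = 2 * n + 1 → PoleFormula Φ σ Z n,
        ∀ (Z : 𝒱.Obj) (n : ℕ), Z.dim = 2 * n + 1 → SemisimpleTateIn Φ Z n,
        ∀ Z : 𝒱.Obj, 0 < Z.dim → ∀ j ≤ Z.dim, PoleFormula Φ σ Z j]) :=
  ⟨fun _ _ _ _ h => ⟨pole_hyperplane hp.one_lt hRH h.dim_eq h.isCyc h.cl_eq h.hard h.weak,
    fun h1 => one_pole hp.one_lt hRH h h1⟩, fun hs => one_pole_all hp.one_lt hRH hs⟩

end Pool.Agent.Results.MP_557161_ag.OnePole
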