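import Pool.Agent.Y137.DU.Pole

/-!
# Poles of the zeta functions of the products of abelian varieties of dimension at most five, and of
products of elliptic curves and abelian surfaces, with arbitrary varieties

Let `k` be the field with `q = p ^ a` elements and let `Y` be an abelian variety over `k` (`RedAV`: over
an algebraic closure each abelian variety is isogenous to the reduction of an abelian variety of CM
type, by Honda and Tate). Suppose (`IsGoodAVS`) that

* the dimension of `Y` is at most five, or
* `Y` is isogenous over `k̄` to a product of abelian varieties of dimension at most three, such that any
  two of them which are nonisogenous, not supersingular, of dimension three, and whose CM fields have the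
  same Galois closure, have CM fields that are Galois over `ℚ`, and of a supersingular abelian variety of
  any dimension. So `Y` may be **any product of elliptic curves and abelian surfaces**, of any dimension
  and with any Newton polygon.

Let `U` be **any** smooth projective variety, of dimension `d`, over `k`. We only assume that the
eigenvalues `α` of the Frobenius endomorphism on the cohomology of `U` are independent of `Y`
(`AreIndependent`): for some `N > 0` the intersection of the field `ℚ(α ^ N)` with the compositum of the
Galois closures of the CM fields of the factors of `Y` is totally real; and that no eigenvalue in odd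
degree is of supersingular type (`HasNoOddSupersingular`), for example that the odd cohomology of `U`
vanishes. Nothing else is assumed on `U`: no semisimplicity, no form of the Tate conjecture or of the
standard conjectures.

For a variety `X` over `k` let `o(X, i)` be the order of the pole at `s = i` of the zeta function of `X`,
and `r(X, i)` the rank of the group of cycles of codimension `i` on `X` modulo numerical equivalence,
both over all sufficiently large finite extensions of `k`. So `o(X, i)` is the multiplicity of the
eigenvalue `q ^ i` (up to roots of unity) of Frobenius on `H^(2 i)(X)` (by Deligne there are no such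
eigenvalues in the other degrees), and `r(X, i)` is the rank of the intersection matrix (`rank`). The
*defect* `o(X, i) - r(X, i) ≥ 0` is zero if and only if Tate's formula holds for `X` and `s = i`.

**Theorem.**
1. There are positive numbers `ρ (2 i)`, `0 ≤ i ≤ dim Y`, such that for all `c`
   `o(Y × U, c) = ∑ ρ (2 i) * o(U, c - i)` and `r(Y × U, c) = ∑ ρ (2 i) * r(U, c - i)`.
   So **the defect of `Y × U` at `c` is `∑ ρ (2 i) * (the defect of U at c - i)`**. (In the Lean statement
   this is formulated for each Künneth component `H^k(Y) ⊗ H^b(U)`, where `k = 2 i`, `b = 2 (c - i)`; the
   components with odd `k` do not contribute, `ρ k = 0`. For `U` a point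
   `ρ (2 i) = o(Y, i) = r(Y, i)`.)
2. For each `c`, **Tate's formula for the order of the pole of the zeta function holds for `Y × U` at
   `s = c` if and only if it holds for `U` at `s = c - i` for all `0 ≤ i ≤ dim Y`**.

For example Tate's formula holds for `Y × U` at all integers for all surfaces `U` as above for which the
Tate conjecture is known (for instance all K3 surfaces with Frobenius eigenvalues independent of `Y`).

In the Lean statement `M b = H^b(U)`, and the part `H^k(Y) ⊗ H^b(U)` of the cohomology of `Y × U` is the
space of the alternating maps in `k` variables from the Tate module of `Y` to `M b`. The structure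
`IsCycleTheory` and `AreTateClasses` list what is used on algebraic cycles, all of which is known:
products, push-forward along `Y × U → U`, intersection numbers are integers, the action of Frobenius, and
that the Tate classes on `Y` which belong to the system `AlgS` are linear combinations of classes of
cycles. This system is generated by the Tate classes of degree two, by the reductions of the split Weil
classes on abelian fourfolds and sixfolds of CM type, and by the reductions of the Hodge classes of degree
four on products of elliptic curves and abelian surfaces of CM type; these classes are algebraic by
theorems of Tate, Markman and Ramón Marí.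

Idea of the proof: the generalised eigenvectors in `H^k(Y) ⊗ H^b(U)` are products of Tate classes on `Y`
and generalised eigenvectors for `U`, as in `MP_950c68_ag.FiveAndSurfacesTimesVarieties`; the cycles on
`Y × U` are combinations of products of cycles (`MP_f569db_ag.FiveAndSurfacesTimesVarieties`), and the
coefficient of a cycle at each monomial in the eigenforms of `Y` is, up to a factor, the push-forward of
its product with a Tate class on `Y`. So the numerically trivial part is the product of the Tate classes
of `Y` and of the numerically trivial part for `U`.
-/

set_option autoImplicit false

namespace Pool.Agent.Results.MP_557161_ag.PolesTimesVarieties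

open Module Pool.Agent.W495.TA Pool.Agent.Y137.GN Pool.Agent.Y137.DU

/-- **Poles of the zeta function of `Y × U`**, `Y` an abelian variety of dimension at most five, or a
product of elliptic curves and abelian surfaces, and `U` an arbitrary variety with independent Frobenius
eigenvalues. -/
theorem result (p : ℕ) [Fact p.Prime] (ν : PadicAlgCl p ≃+* ℂ) (Ω : Type) [Field Ω]
    [IsAlgClosed Ω] [CharZero Ω] (Y : RedAV p ν) (hY : IsGoodAVS Y) (M : ℕ → Type)
    [∀ b, AddCommGroup (M b)] [∀ b, Module Ω (M b)] [∀ b, FiniteDimensional Ω (M b)] (d : ℕ)
    (φ : Operators Ω M) (B : Pairings Ω M) (ZY : ∀ k, Set (H Ω Y k Ω))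
    (ZU : ∀ b, AddSubgroup (M b)) (Z : ∀ k b, Set (H Ω Y k (M b)))
    (hZ : IsCycleTheory Y d φ B ZY ZU Z) (hT : AreTateClasses Y ZY) (hφ : AreIndependent Y φ)
    (hodd : HasNoOddSupersingular ((p : Ω) ^ Y.a) φ) :
    (∃ ρ : ℕ → ℕ, (∀ k, k ≤ finrank ℚ Y.X.H1 → (0 < ρ k ↔ Even k)) ∧
      HasDefectFormula Y d φ B ZU Z ρ) ∧
    ∀ c, PoleFormulaTimes Y d φ B Z c ↔ ∀ b b', Even b → b ≤ 2 * c →
      2 * c ≤ b + finrank ℚ Y.X.H1 → b + b' = 2 * d →
        order ((p : Ω) ^ Y.a) φ b = rank B ZU b b' :=
  ⟨⟨factor Ω Y, fun _ hk => factor_pos hZ hT hk, defect_formula hY hZ hT hφ hodd⟩,
    fun c => pole_iff hY hZ hT hφ hodd c⟩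

end Pool.Agent.Results.MP_557161_ag.PolesTimesVarieties
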