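import Pool.Agent.Y711.Zt

/-!
No poles at the integers below the dimension for the zeta functions of twisted products of families
of curves over the line, for at least half of the twists.
-/

set_option autoImplicit false

open Polynomial Pool.Agent.Y711.Zeta

namespace Pool.Agent.Results.MP_557161_ag.TwistedFibreProducts

theorem result (k : Type) [Field k] [Finite k] (h2 : (2 : k) ≠ 0) (h3 : (3 : k) ≠ 0)
    (m : k[X]) (hm : m.Monic) (hs : Squarefree m) (δ : ℝ) (hδ : δ < 1 / 2) :
    ∃ N : ℕ, ∀ g ≥ N, δ * (twists g m).ncard ≤ (goodTwists g m).ncard :=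
  Pool.Agent.Y711.zeta_bound h2 h3 hm hs hδ

end Pool.Agent.Results.MP_557161_ag.TwistedFibreProducts
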